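import Pool.Agent.Helper12.TL.Tri

set_option autoImplicit false
set_option linter.unusedSectionVars false

/-!
# A small overlap vector

The triangle at a merged line gives an index vector with a small abscissa.
-/

namespace Helper12.TL

open Helper11.N1 Helper55.KE

section

variable {p q a b c : ℕ} [NeZero p] [NeZero q] {z : ZMod p → ZMod (p * q)} {i0 ρ : ZMod p}
  {θ : ZMod (p * q)} {δ l : ℕ} {k : ℤ}

theorem two_le (hG : Gen q z) {X : ZMod (p * q)} (hc : c ≤ 1) {jn jm j : ZMod p}
    (hn : z jn = X + (c : ZMod (p * q)))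
    (hm : z jm = X + ((1 - c : ℕ) : ZMod (p * q)) + (b : ZMod (p * q)) * (q : ZMod (p * q)))
    (h1 : j ≠ jn) (h2 : j ≠ jm) {o : ℕ}
    (ho : res p q (z j) = res p q X + (o : ZMod q)) : 2 ≤ o % q := by
  by_contra hlt
  have e1 : (o : ZMod q) = ((o % q : ℕ) : ZMod q) := by rw [ZMod.natCast_mod]
  have r1 : res p q (z jn) = res p q X + (c : ZMod q) := by
    rw [hn, map_add, map_natCast]
  have r2 : res p q (z jm) = res p q X + ((1 - c : ℕ) : ZMod q) := by
    rw [hm, map_add, map_add, map_natCast, res_mul_q, add_zero]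
  have h3 : o % q = c ∨ o % q = 1 - c := by omega
  rcases h3 with h3 | h3
  · apply h1
    apply gen_res p q hG
    rw [ho, r1, e1, h3]
  · apply h2
    apply gen_res p q hG
    rw [ho, r2, e1, h3]

theorem box_lt {o v d : ℕ} (h2 : 2 ≤ o % q) (h : o + q * v < q * d + 2) :
    v < d ∧ (o : ℤ) < q * ((d : ℤ) - v) := by
  have e1 := Nat.div_add_mod o q
  have h3 : o / q + v < d := by
    by_contra h4
    have h5 : q * d ≤ q * (o / q + v) := Nat.mul_le_mul_left _ (by omega)
    have h6 : q * (o / q + v) = q * (o / q) + q * v := by ring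
    omega
  have hvd : v < d := by
    have := Nat.zero_le (o / q)
    omega
  refine ⟨hvd, ?_⟩
  have h4 : o % q < q := Nat.mod_lt _ (Nat.pos_of_ne_zero (NeZero.ne q))
  have h5 : (o : ℤ) < q * ((o / q : ℕ) + 1 : ℤ) := by
    have h6 : (o : ℤ) = q * ((o / q : ℕ) : ℤ) + ((o % q : ℕ) : ℤ) := by exact_mod_cast e1.symm
    rw [h6]
    have h7 : ((o % q : ℕ) : ℤ) < q := by exact_mod_cast h4
    push_cast
    rw [mul_add, mul_one]
    push_cast at h7
    linarith
  have h6 : (q : ℤ) * ((o / q : ℕ) + 1 : ℤ) ≤ q * ((d : ℤ) - v) := by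
    apply mul_le_mul_of_nonneg_left _ (by positivity)
    have : (((o / q : ℕ) : ℤ)) + v < d := by exact_mod_cast h3
    linarith
  linarith

/-- the T-lemma: another index vector with a small abscissa -/
theorem tlem (h : LS p q a b c z i0 ρ θ δ l k) (hk0 : k ≠ 0) (hka : |k| ≤ a)
    (hb : 0 < k → (a : ℤ) < b + k) {n : ℕ} (hln : l ≤ n) (hn : n < p) :
    ∃ (f : ℕ) (m x v r : ℤ), f < p ∧ f ≠ n ∧ f + l ≠ n ∧ 0 ≤ v ∧ 0 < x ∧
      x < q * (a - |k| - v) ∧ v < a - |k| ∧ (m : ZMod (p * q)) * θ = (x : ZMod (p * q)) ∧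
      (m : ZMod p) * ρ = (r : ZMod p) ∧ (m = f - n ∨ m = f + l - n) ∧
      (r = v - a ∨ r = v + |k|) := by
  have hpq := h.hpq
  have hl0 := h.hl0
  have hP := h.hP
  have hc := h.hB.hc
  set jn := i0 + (n : ZMod p) * ρ with hjn
  set jm := i0 + ((n - l : ℕ) : ZMod p) * ρ with hjm
  set X := bx q c z jn with hX
  have hX0 : rp p q X = 0 := bx_rp h.hB jn
  have hzn : z jn = X + (c : ZMod (p * q)) := by
    rw [hX]; unfold bx; ring
  have hzm : z jm = X + ((1 - c : ℕ) : ZMod (p * q)) +
      (b : ZMod (p * q)) * (q : ZMod (p * q)) := by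
    have h1 := h.mg hn (by omega) (h.mgl hln)
    rw [hX, ← h1]
    unfold byy
    ring
  have hne : jn ≠ jm := ap_ne h.hAP hn (by omega) (by omega)
  have hrow : jm = jn - ((k + b : ℤ) : ZMod p) := by
    rw [hjm, hjn, Nat.cast_sub hln, sub_mul, h.hrl]
    ring
  -- every row has an index
  have hidx : ∀ j : ZMod p, j ≠ jn → j ≠ jm → ∃ f : ℕ, f < p ∧ f ≠ n ∧ f + l ≠ n ∧
      j = i0 + (f : ZMod p) * ρ := by
    intro j h1 h2
    obtain ⟨f, hf, hfj⟩ := ap_row h.hAP j
    refine ⟨f, hf, ?_, ?_, hfj⟩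
    · rintro rfl
      exact h1 hfj
    · intro h3
      apply h2
      rw [hjm, hfj]
      have : n - l = f := by omega
      rw [this]
  have hlθ := h.hxl
  have hzj : ∀ f : ℕ, f < p → z (i0 + (f : ZMod p) * ρ) = z i0 + (f : ZMod (p * q)) * θ :=
    fun f hf => h.hAP.2 f hf
  have cnv : ∀ f : ℕ, f < p → ∀ o : ℕ, z (i0 + (f : ZMod p) * ρ) = X + (o : ZMod (p * q)) →
      (((f : ℤ) - n : ℤ) : ZMod (p * q)) * θ = (((o : ℤ) - c : ℤ) : ZMod (p * q)) := by
    intro f hf o ho
    have h1 := hzj f hf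
    have h2 := hzj n hn
    rw [← hjn, hzn] at h2
    rw [ho] at h1
    push_cast
    linear_combination h2 - h1
  have cnvL : ∀ f : ℕ, f < p → ∀ o : ℕ, z (i0 + (f : ZMod p) * ρ) -
      (b : ZMod (p * q)) * (q : ZMod (p * q)) = X + (o : ZMod (p * q)) →
      (((f : ℤ) + l - n : ℤ) : ZMod (p * q)) * θ = (((o : ℤ) - 1 + c : ℤ) : ZMod (p * q)) := by
    intro f hf o ho
    have h1 := hzj f hf
    have h2 := hzj n hn
    rw [← hjn, hzn] at h2
    rw [h1] at ho
    push_cast at hlθ ⊢
    linear_combination h2 + ho + hlθ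
  have rowc : ∀ (f : ℕ) (W : ZMod p) (y v : ℕ), i0 + (f : ZMod p) * ρ + (y : ZMod p) =
      W + (v : ZMod p) → (((f : ℤ) - n : ℤ) : ZMod p) * ρ = (W - jn) + (v : ZMod p) - y := by
    intro f W y v h1
    push_cast
    rw [hjn]
    linear_combination h1
  rcases lt_or_gt_of_ne hk0 with hk | hk
  · -- negative
    obtain ⟨κ, hκ⟩ : ∃ κ : ℕ, k = -(κ : ℤ) := ⟨k.natAbs, by omega⟩
    have hab : |k| = κ := by rw [hκ, abs_neg]; simp
    rw [hab] at hka ⊢
    have hκ1 : 1 ≤ κ := by omega
    have hκa : κ ≤ a := by exact_mod_cast hka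
    have hr : jm + (b : ZMod p) = jn + (κ : ZMod p) := by
      rw [hrow, hκ]
      push_cast
      ring
    obtain ⟨j, h1, h2, h3⟩ := tri_neg hP hpq hc hκ1 hκa hne hzn hzm hr (h.hF _ _ _ hX0)
    obtain ⟨f, hf, hfn, hfl, rfl⟩ := hidx j h1 h2
    have hT : q * (a - κ) + 2 < p * q := by
      have h5 : q * (a - κ + 1) ≤ q * p := Nat.mul_le_mul_left _ (by have := hP.hab; omega)
      have h6 : q * (a - κ + 1) = q * (a - κ) + q := by ring
      have h7 : q * p = p * q := Nat.mul_comm _ _
      have := hP.hab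
      have := hP.ha
      omega
    have hM : 0 < p := by omega
    rcases h3 with h3 | h3
    · set o := off X (z (i0 + (f : ZMod p) * ρ)) with ho
      have ho1 : z (i0 + (f : ZMod p) * ρ) = X + (o : ZMod (p * q)) := (off_spec _ _).symm
      unfold tri at h3
      rw [off_nat _ hT, ← ho] at h3
      set v := (i0 + (f : ZMod p) * ρ - (jn + (κ : ZMod p))).val with hv
      have hv1 : i0 + (f : ZMod p) * ρ + ((0 : ℕ) : ZMod p) = (jn + (κ : ZMod p)) + (v : ZMod p) := by
        rw [hv, ZMod.natCast_zmod_val]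
        push_cast
        ring
      have h5 := two_le h.hG hc hzn hzm h1 h2 (o := o) (by rw [ho1, map_add, map_natCast])
      obtain ⟨h6, h7⟩ := box_lt h5 h3
      have h8 : o % q ≤ o := Nat.mod_le _ _
      rw [Nat.cast_sub hκa] at h7
      refine ⟨f, (f : ℤ) - n, (o : ℤ) - c, v, (v : ℤ) + κ, hf, hfn, hfl, by positivity, by omega,
        by omega, by omega, cnv f hf o ho1, ?_, Or.inl rfl, Or.inr rfl⟩
      rw [rowc f _ 0 v hv1]
      push_cast
      ring
    · set o := off X (z (i0 + (f : ZMod p) * ρ) - (b : ZMod (p * q)) * (q : ZMod (p * q))) with ho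
      have ho1 : z (i0 + (f : ZMod p) * ρ) - (b : ZMod (p * q)) * (q : ZMod (p * q)) =
        X + (o : ZMod (p * q)) := (off_spec _ _).symm
      unfold tri at h3
      rw [off_nat _ hT, ← ho] at h3
      set v := (i0 + (f : ZMod p) * ρ + (a : ZMod p) + (b : ZMod p) - (jn + (κ : ZMod p))).val with hv
      have hv1 : i0 + (f : ZMod p) * ρ + ((a + b : ℕ) : ZMod p) =
          (jn + (κ : ZMod p)) + (v : ZMod p) := by
        rw [hv, ZMod.natCast_zmod_val]
        push_cast
        ring
      have h5 := two_le h.hG hc hzn hzm h1 h2 (o := o) (by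
        have := congrArg (res p q) ho1
        rw [map_sub, res_mul_q, sub_zero, map_add, map_natCast] at this
        exact this)
      obtain ⟨h6, h7⟩ := box_lt h5 h3
      have h8 : o % q ≤ o := Nat.mod_le _ _
      rw [Nat.cast_sub hκa] at h7
      refine ⟨f, (f : ℤ) + l - n, (o : ℤ) - 1 + c, v, (v : ℤ) - a, hf, hfn, hfl, by positivity,
        by omega, by omega, by omega, cnvL f hf o ho1, ?_, Or.inr rfl, Or.inl rfl⟩
      have h9 := rowc f _ (a + b) v hv1
      have h10 := h.hrl
      rw [hκ] at h10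
      push_cast at h9 h10 ⊢
      linear_combination h9 + h10
  · -- positive
    obtain ⟨κ, hκ⟩ : ∃ κ : ℕ, k = (κ : ℤ) := ⟨k.natAbs, by omega⟩
    have hab : |k| = κ := by rw [hκ]; simp
    rw [hab] at hka ⊢
    have hκ1 : 1 ≤ κ := by omega
    have hκa : κ ≤ a := by exact_mod_cast hka
    have hbk : a < b + κ := by
      have := hb hk
      omega
    have hr : jm + (b : ZMod p) + (κ : ZMod p) = jn := by
      rw [hrow, hκ]
      push_cast
      ring
    obtain ⟨j, h1, h2, h3⟩ := tri_pos hP hpq hc hκ1 hκa hbk hne hzn hzm hr (h.hF _ _ _ hX0)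
    obtain ⟨f, hf, hfn, hfl, rfl⟩ := hidx j h1 h2
    have hT : q * (a - κ) + 2 < p * q := by
      have h5 : q * (a - κ + 1) ≤ q * p := Nat.mul_le_mul_left _ (by have := hP.hab; omega)
      have h6 : q * (a - κ + 1) = q * (a - κ) + q := by ring
      have h7 : q * p = p * q := Nat.mul_comm _ _
      have := hP.hab
      have := hP.ha
      omega
    have hM : 0 < p := by omega
    rcases h3 with h3 | h3
    · set o := off X (z (i0 + (f : ZMod p) * ρ)) with ho
      have ho1 : z (i0 + (f : ZMod p) * ρ) = X + (o : ZMod (p * q)) := (off_spec _ _).symm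
      unfold tri at h3
      rw [off_nat _ hT, ← ho] at h3
      set v := (i0 + (f : ZMod p) * ρ + (a : ZMod p) - jn).val with hv
      have hv1 : i0 + (f : ZMod p) * ρ + (a : ZMod p) = jn + (v : ZMod p) := by
        rw [hv, ZMod.natCast_zmod_val]
        ring
      have h5 := two_le h.hG hc hzn hzm h1 h2 (o := o) (by rw [ho1, map_add, map_natCast])
      obtain ⟨h6, h7⟩ := box_lt h5 h3
      have h8 : o % q ≤ o := Nat.mod_le _ _
      rw [Nat.cast_sub hκa] at h7
      refine ⟨f, (f : ℤ) - n, (o : ℤ) - c, v, (v : ℤ) - a, hf, hfn, hfl, by positivity, by omega,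
        by omega, by omega, cnv f hf o ho1, ?_, Or.inl rfl, Or.inl rfl⟩
      rw [rowc f _ a v hv1]
      push_cast
      ring
    · set o := off X (z (i0 + (f : ZMod p) * ρ) - (b : ZMod (p * q)) * (q : ZMod (p * q))) with ho
      have ho1 : z (i0 + (f : ZMod p) * ρ) - (b : ZMod (p * q)) * (q : ZMod (p * q)) =
        X + (o : ZMod (p * q)) := (off_spec _ _).symm
      unfold tri at h3
      rw [off_nat _ hT, ← ho] at h3
      set v := (i0 + (f : ZMod p) * ρ + (b : ZMod p) - jn).val with hv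
      have hv1 : i0 + (f : ZMod p) * ρ + (b : ZMod p) = jn + (v : ZMod p) := by
        rw [hv, ZMod.natCast_zmod_val]
        ring
      have h5 := two_le h.hG hc hzn hzm h1 h2 (o := o) (by
        have := congrArg (res p q) ho1
        rw [map_sub, res_mul_q, sub_zero, map_add, map_natCast] at this
        exact this)
      obtain ⟨h6, h7⟩ := box_lt h5 h3
      have h8 : o % q ≤ o := Nat.mod_le _ _
      rw [Nat.cast_sub hκa] at h7
      refine ⟨f, (f : ℤ) + l - n, (o : ℤ) - 1 + c, v, (v : ℤ) + κ, hf, hfn, hfl, by positivity,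
        by omega, by omega, by omega, cnvL f hf o ho1, ?_, Or.inr rfl, Or.inr rfl⟩
      have h9 := rowc f _ b v hv1
      have h10 := h.hrl
      rw [hκ] at h10
      push_cast at h9 h10 ⊢
      linear_combination h9 + h10

/-- the class is not `a` or `-a`: two corners of the same sign coincide -/
theorem ne_edge (h : LS p q a b c z i0 ρ θ δ l k) : |k| ≠ a := by
  intro hk
  have ha := h.hP.ha
  have hb := h.hP.hb
  obtain ⟨f, m, x, v, r, -, -, -, hv0, -, -, hv1, -⟩ :=
    tlem h (by rintro rfl; rw [abs_zero] at hk; omega) hk.le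
      (by intro h1; rw [abs_of_pos h1] at hk; omega) (n := l) le_rfl h.hl
  omega

/-- for `2 a ≤ b` there is an overlap vector with a small abscissa -/
theorem tk (h : LS p q a b c z i0 ρ θ δ l k) (hk0 : k ≠ 0) (hka : |k| < a) (h2 : 2 * a ≤ b)
    (h2b : 2 * b < p) :
    ∃ (N : ℕ) (x r : ℤ), 0 < N ∧ N < p ∧ N ≠ l ∧ N + l ≠ p ∧ At ρ θ N x r ∧
      |x| < q * (a - |k|) ∧ |k| * q < |x + r * q| ∧ |x + r * q| < a * q := by
  have hl0 := h.hl0
  have hl := h.hl
  have hq : (0 : ℤ) < q := by
    have := h.hpq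
    omega
  have hk1 : 0 < |k| := abs_pos.2 hk0
  obtain ⟨hkl, hku⟩ := abs_lt.1 hka
  obtain ⟨hk2, hk3⟩ := abs_le.1 (le_refl |k|)
  obtain ⟨f, m, x, v, r, hf, hfn, hfl, hv0, hx0, hx1, hv1, hmθ, hmρ, hm, hr⟩ :=
    tlem h hk0 hka.le (by intro h1; omega) (n := p - 1) (by omega) (by omega)
  have hm0 : m ≠ 0 := by omega
  have hmp : -(p : ℤ) < m ∧ m < p := by omega
  have hxa : x < q * (a - |k|) := by
    have : (q : ℤ) * (a - |k| - v) ≤ q * (a - |k|) := by
      apply mul_le_mul_of_nonneg_left _ hq.le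
      linarith
    linarith
  have hs : |k| * q < |x + r * q| ∧ |x + r * q| < a * q := by
    rcases hr with hr | hr
    · have e1 : x + r * q = x + v * q - a * q := by rw [hr]; ring
      have e2 : (q : ℤ) * (a - |k| - v) = a * q - |k| * q - v * q := by ring
      have e3 : 0 ≤ v * q := by positivity
      have e4 : x + r * q < -(|k| * q) := by rw [e1]; linarith
      have e5 : -(a * q : ℤ) < x + r * q := by rw [e1]; linarith
      have e6 : 0 < |k| * q := by positivity
      rw [abs_of_neg (a := x + r * q) (by linarith)]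
      constructor <;> linarith
    · have e1 : x + r * q = x + v * q + |k| * q := by rw [hr]; ring
      have e2 : (q : ℤ) * (a - |k| - v) = a * q - |k| * q - v * q := by ring
      have e3 : 0 ≤ v * q := by positivity
      have e6 : 0 < |k| * q := by positivity
      have e4 : |k| * q < x + r * q := by rw [e1]; linarith
      have e5 : x + r * q < a * q := by rw [e1]; linarith
      rw [abs_of_pos (a := x + r * q) (by linarith)]
      constructor <;> linarith
  -- the index is not `± l` modulo `p`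
  have hrb : -(a : ℤ) ≤ r ∧ r < a := by
    rcases hr with hr | hr <;> constructor <;> linarith
  have hnl : ∀ s : ℤ, (s = 1 ∨ s = -1) → ¬ (p : ℤ) ∣ m - s * l := by
    intro s hs1 hd
    have h3 : ((m - s * l : ℤ) : ZMod p) = 0 := (ZMod.intCast_zmod_eq_zero_iff_dvd _ _).2 hd
    have h4 := h.hrl
    have h5 : ((r - s * (k + b) : ℤ) : ZMod p) = 0 := by
      push_cast at h3 h4 hmρ ⊢
      linear_combination (ρ : ZMod p) * h3 - hmρ + (s : ZMod p) * h4
    have h6 := (ZMod.intCast_zmod_eq_zero_iff_dvd _ _).1 h5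
    obtain ⟨w, hw⟩ := h6
    have hb0 : (2 * a : ℤ) ≤ b := by exact_mod_cast h2
    have hb1 : (2 * b : ℤ) < p := by exact_mod_cast h2b
    rcases hs1 with rfl | rfl
    · have h7 : (p : ℤ) * w < 0 := by rw [← hw]; linarith
      have h8 : -(p : ℤ) < p * w := by rw [← hw]; linarith
      have h9 : w < 0 := by nlinarith
      have h10 : -1 < w := by nlinarith
      omega
    · have h7 : 0 < (p : ℤ) * w := by rw [← hw]; linarith
      have h8 : (p : ℤ) * w < p := by rw [← hw]; linarith
      have h9 : 0 < w := by nlinarith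
      have h10 : w < 1 := by nlinarith
      omega
  have hl1 := hnl 1 (Or.inl rfl)
  have hl2 := hnl (-1) (Or.inr rfl)
  rcases lt_or_gt_of_ne hm0 with hneg | hpos
  · obtain ⟨N, hN⟩ : ∃ N : ℕ, m = -(N : ℤ) := ⟨m.natAbs, by omega⟩
    refine ⟨N, -x, -r, by omega, by omega, ?_, ?_, ⟨?_, ?_⟩, ?_, ?_, ?_⟩
    · rintro rfl
      exact hl2 ⟨0, by rw [hN]; ring⟩
    · intro h3
      apply hl1
      refine ⟨-1, ?_⟩
      rw [hN, ← h3]
      push_cast
      ring
    · rw [hN] at hmθ
      push_cast at hmθ ⊢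
      linear_combination -hmθ
    · rw [hN] at hmρ
      push_cast at hmρ ⊢
      linear_combination -hmρ
    · rw [abs_neg, abs_of_pos hx0]
      exact hxa
    · have : -x + -r * q = -(x + r * q) := by ring
      rw [this, abs_neg]
      exact hs.1
    · have : -x + -r * q = -(x + r * q) := by ring
      rw [this, abs_neg]
      exact hs.2
  · obtain ⟨N, hN⟩ : ∃ N : ℕ, m = (N : ℤ) := ⟨m.natAbs, by omega⟩
    refine ⟨N, x, r, by omega, by omega, ?_, ?_, ⟨?_, ?_⟩, ?_, hs.1, hs.2⟩
    · rintro rfl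
      exact hl1 ⟨0, by rw [hN]; ring⟩
    · intro h3
      apply hl2
      refine ⟨1, ?_⟩
      rw [hN, ← h3]
      push_cast
      ring
    · rw [hN] at hmθ
      push_cast at hmθ ⊢
      exact hmθ
    · rw [hN] at hmρ
      push_cast at hmρ ⊢
      exact hmρ
    · rw [abs_of_pos hx0]
      exact hxa

end

end Helper12.TL
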