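import Pool.Agent.Helper55.KE.ML

set_option autoImplicit false
set_option linter.unusedSectionVars false

/-!
# One triangle at a merged line

At a merged line the four corners of the two boxes have the signs `+`, `-`, `-`, `+`; a triangle
which contains the inner pair only has to contain a corner of the opposite sign of another box.
-/

namespace Helper12.TL

open Helper11.N1

section

variable {p q a b : ℕ} [NeZero p] [NeZero q] {z : ZMod p → ZMod (p * q)}

theorem sum_two {s : ZMod p → ℤ} {i j : ZMod p} (hij : i ≠ j) (hi : 1 ≤ s i) (hj : 1 ≤ s j)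
    (h : ∀ m, m ≠ i → m ≠ j → 0 ≤ s m) : 2 ≤ ∑ m, s m := by
  classical
  have h1 : ∑ m : ZMod p, ((if m = i then (1 : ℤ) else 0) + (if m = j then (1 : ℤ) else 0)) = 2 := by
    rw [Finset.sum_add_distrib, Finset.sum_ite_eq', Finset.sum_ite_eq']
    simp
  rw [← h1]
  apply Finset.sum_le_sum
  intro m _
  by_cases hmi : m = i
  · subst hmi
    rw [if_pos rfl, if_neg hij]
    omega
  · by_cases hmj : m = j
    · subst hmj
      rw [if_neg hmi, if_pos rfl]
      omega
    · rw [if_neg hmi, if_neg hmj]
      have := h m hmi hmj
      omega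

theorem val_of {y : ZMod p} {r : ℕ} (h : y = (r : ZMod p)) (hr : r < p) : y.val = r := by
  rw [h, ZMod.val_natCast_of_lt hr]

theorem tri_iff (X : ZMod (p * q)) (W : ZMod p) {T : ℕ} (hT : T < p * q) {x : ZMod (p * q)}
    {j : ZMod p} {m r : ℕ} (hx : x = X + (m : ZMod (p * q))) (hm : m < p * q)
    (hj : j = W + (r : ZMod p)) (hr : r < p) :
    tri q X W (X + e p q W + (T : ZMod (p * q))) x j ↔ m + q * r < T := by
  unfold tri
  rw [off_nat _ hT, hx, off_nat _ hm, val_of (r := r) (by rw [hj]; ring) hr]

theorem cast_M : ((p * q : ℕ) : ZMod (p * q)) = 0 := ZMod.natCast_self _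

/-- inner pair of the sign `+` -/
theorem tri_pos (hP : Par p q a b) (hqp : p < q) {X : ZMod (p * q)} {c κ : ℕ} (hc : c ≤ 1)
    (hκ : 1 ≤ κ) (hκa : κ ≤ a) (hb : a < b + κ) {jn jm : ZMod p} (hne : jn ≠ jm)
    (hn : z jn = X + (c : ZMod (p * q)))
    (hm : z jm = X + ((1 - c : ℕ) : ZMod (p * q)) + (b : ZMod (p * q)) * (q : ZMod (p * q)))
    (hr : jm + (b : ZMod p) + (κ : ZMod p) = jn)
    (hF : |FF q a b z X jn (X + e p q jn + ((q * (a - κ) + 2 : ℕ) : ZMod (p * q)))| ≤ 1) :
    ∃ j : ZMod p, j ≠ jn ∧ j ≠ jm ∧
      (tri q X jn (X + e p q jn + ((q * (a - κ) + 2 : ℕ) : ZMod (p * q))) (z j) (j + a) ∨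
        tri q X jn (X + e p q jn + ((q * (a - κ) + 2 : ℕ) : ZMod (p * q))) (z j - b * q)
          (j + b)) := by
  by_contra hcon
  push Not at hcon
  have ha := hP.ha
  have hb2 := hP.hb
  have hab := hP.hab
  obtain ⟨d, hd⟩ : ∃ d : ℕ, a = d + κ := ⟨a - κ, by omega⟩
  have e0 : a - κ = d := by omega
  rw [e0] at hcon hF
  have hT : q * d + 2 < p * q := by
    have : q * (d + 1) ≤ q * p := Nat.mul_le_mul_left _ (by omega)
    nlinarith
  set S := X + e p q jn + ((q * d + 2 : ℕ) : ZMod (p * q)) with hS
  have key : 2 ≤ FF q a b z X jn S := by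
    unfold FF
    apply sum_two hne
    · -- the cluster n
      have t1 : tri q X jn S (z jn) jn := by
        rw [hS, tri_iff X jn hT (r := 0) (m := c) hn (by nlinarith) (by simp) (by omega)]
        nlinarith
      have t2 : ¬ tri q X jn S (z jn) (jn + a) := by
        rw [hS, tri_iff X jn hT (r := a) (m := c) hn (by nlinarith) rfl (by omega)]
        have : q * (d + 1) ≤ q * a := Nat.mul_le_mul_left _ (by omega)
        nlinarith
      have t3 : ¬ tri q X jn S (z jn - b * q) (jn + b) := by
        rw [hS, tri_iff X jn hT (r := b) (m := p * q - b * q + c) ?_ ?_ rfl (by omega)]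
        · have h1 : b * q ≤ p * q := Nat.mul_le_mul_right _ (by omega)
          have h2 : q * b = b * q := Nat.mul_comm _ _
          have h3 : q * (d + 1) ≤ q * p := Nat.mul_le_mul_left _ (by omega)
          have h4 : q * p = p * q := Nat.mul_comm _ _
          have h5 : q * (d + 1) = q * d + q := by ring
          omega
        · rw [hn]
          have h1 : b * q ≤ p * q := Nat.mul_le_mul_right _ (by omega)
          push_cast [Nat.cast_sub h1]
          have := cast_M (p := p) (q := q)
          push_cast at this
          linear_combination -this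
        · have h1 : 1 * q < b * q := Nat.mul_lt_mul_of_pos_right (by omega) (by omega)
          have h2 : b * q ≤ p * q := Nat.mul_le_mul_right _ (by omega)
          omega
      rw [if_pos t1, if_neg t2, if_neg t3]
      split_ifs <;> omega
    · -- the cluster m
      have t2 : ¬ tri q X jn S (z jm) (jm + a) := by
        rw [hS, tri_iff X jn hT (r := p + d - b) (m := (1 - c) + b * q) ?_ ?_ ?_ (by omega)]
        · have h1 : q * (d + 1) ≤ q * (p + d - b) := Nat.mul_le_mul_left _ (by omega)
          have h5 : q * (d + 1) = q * d + q := by ring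
          omega
        · rw [hm]; push_cast; ring
        · have h1 : (b + 1) * q ≤ p * q := Nat.mul_le_mul_right _ (by omega)
          have h2 : (b + 1) * q = b * q + q := by ring
          omega
        · rw [← hr, Nat.cast_sub (by omega)]
          push_cast [hd]
          rw [ZMod.natCast_self]
          ring
      have t3 : ¬ tri q X jn S (z jm - b * q) (jm + b) := by
        rw [hS, tri_iff X jn hT (r := p - κ) (m := 1 - c) ?_ ?_ ?_ (by omega)]
        · have h1 : q * (d + 1) ≤ q * (p - κ) := Nat.mul_le_mul_left _ (by omega)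
          have h5 : q * (d + 1) = q * d + q := by ring
          omega
        · rw [hm]; ring
        · have h1 : 2 * q ≤ p * q := Nat.mul_le_mul_right _ (by omega)
          omega
        · rw [← hr, Nat.cast_sub (by omega)]
          rw [ZMod.natCast_self]
          ring
      have t4 : tri q X jn S (z jm - b * q) (jm + a + b) := by
        rw [hS, tri_iff X jn hT (r := d) (m := 1 - c) ?_ ?_ ?_ (by omega)]
        · omega
        · rw [hm]; push_cast; ring
        · have h1 : 2 * q ≤ p * q := Nat.mul_le_mul_right _ (by omega)
          omega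
        · rw [← hr, hd]
          push_cast
          ring
      rw [if_neg t2, if_neg t3, if_pos t4]
      split_ifs <;> omega
    · intro j h1 h2
      obtain ⟨h3, h4⟩ := hcon j h1 h2
      rw [if_neg h3, if_neg h4]
      split_ifs <;> omega
  have := abs_le.1 hF
  omega

/-- inner pair of the sign `-` -/
theorem tri_neg (hP : Par p q a b) (hqp : p < q) {X : ZMod (p * q)} {c κ : ℕ} (hc : c ≤ 1)
    (hκ : 1 ≤ κ) (hκa : κ ≤ a) {jn jm : ZMod p} (hne : jn ≠ jm)
    (hn : z jn = X + (c : ZMod (p * q)))
    (hm : z jm = X + ((1 - c : ℕ) : ZMod (p * q)) + (b : ZMod (p * q)) * (q : ZMod (p * q)))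
    (hr : jm + (b : ZMod p) = jn + (κ : ZMod p))
    (hF : |FF q a b z X (jn + κ) (X + e p q (jn + κ) +
      ((q * (a - κ) + 2 : ℕ) : ZMod (p * q)))| ≤ 1) :
    ∃ j : ZMod p, j ≠ jn ∧ j ≠ jm ∧
      (tri q X (jn + κ) (X + e p q (jn + κ) + ((q * (a - κ) + 2 : ℕ) : ZMod (p * q))) (z j) j ∨
        tri q X (jn + κ) (X + e p q (jn + κ) + ((q * (a - κ) + 2 : ℕ) : ZMod (p * q)))
          (z j - b * q) (j + a + b)) := by
  by_contra hcon
  push Not at hcon
  have ha := hP.ha
  have hb2 := hP.hb
  have hab := hP.hab
  obtain ⟨d, hd⟩ : ∃ d : ℕ, a = d + κ := ⟨a - κ, by omega⟩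
  have e0 : a - κ = d := by omega
  rw [e0] at hcon hF
  have hT : q * d + 2 < p * q := by
    have : q * (d + 1) ≤ q * p := Nat.mul_le_mul_left _ (by omega)
    nlinarith
  set W := jn + (κ : ZMod p) with hW
  have hnW : jn = W - (κ : ZMod p) := by rw [hW]; ring
  set S := X + e p q W + ((q * d + 2 : ℕ) : ZMod (p * q)) with hS
  have key : 2 ≤ - FF q a b z X W S := by
    unfold FF
    rw [← Finset.sum_neg_distrib]
    apply sum_two hne
    · -- the cluster n
      have t1 : ¬ tri q X W S (z jn) jn := by
        rw [hS, tri_iff X W hT (r := p - κ) (m := c) hn (by nlinarith) ?_ (by omega)]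
        · have h1 : q * (d + 1) ≤ q * (p - κ) := Nat.mul_le_mul_left _ (by omega)
          have h5 : q * (d + 1) = q * d + q := by ring
          omega
        · rw [hnW, Nat.cast_sub (by omega), ZMod.natCast_self]
          ring
      have t2 : tri q X W S (z jn) (jn + a) := by
        rw [hS, tri_iff X W hT (r := d) (m := c) hn (by nlinarith) ?_ (by omega)]
        · omega
        · rw [hnW, hd]
          push_cast
          ring
      have t4 : ¬ tri q X W S (z jn - b * q) (jn + a + b) := by
        rw [hS, tri_iff X W hT (r := d + b) (m := p * q - b * q + c) ?_ ?_ ?_ (by omega)]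
        · have h1 : b * q ≤ p * q := Nat.mul_le_mul_right _ (by omega)
          have h2 : q * (d + b) = q * d + b * q := by ring
          have h3 : 2 * q ≤ p * q := Nat.mul_le_mul_right _ (by omega)
          omega
        · rw [hn]
          have h1 : b * q ≤ p * q := Nat.mul_le_mul_right _ (by omega)
          push_cast [Nat.cast_sub h1]
          have := cast_M (p := p) (q := q)
          push_cast at this
          linear_combination -this
        · have h1 : 1 * q < b * q := Nat.mul_lt_mul_of_pos_right (by omega) (by omega)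
          have h2 : b * q ≤ p * q := Nat.mul_le_mul_right _ (by omega)
          omega
        · rw [hnW, hd]
          push_cast
          ring
      rw [if_neg t1, if_pos t2, if_neg t4]
      split_ifs <;> omega
    · -- the cluster m
      have t1 : ¬ tri q X W S (z jm) jm := by
        rw [hS, tri_iff X W hT (r := p - b) (m := (1 - c) + b * q) ?_ ?_ ?_ (by omega)]
        · have h1 : q * (p - b) + b * q = p * q := by
            have : q * (p - b) + q * b = q * (p - b + b) := by ring
            rw [show p - b + b = p by omega] at this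
            nlinarith
          omega
        · rw [hm]; push_cast; ring
        · have h1 : (b + 1) * q ≤ p * q := Nat.mul_le_mul_right _ (by omega)
          have h2 : (b + 1) * q = b * q + q := by ring
          omega
        · rw [Nat.cast_sub (by omega), ZMod.natCast_self, ← hr]
          ring
      have t3 : tri q X W S (z jm - b * q) (jm + b) := by
        rw [hS, tri_iff X W hT (r := 0) (m := 1 - c) ?_ ?_ ?_ (by omega)]
        · omega
        · rw [hm]; push_cast; ring
        · have h1 : 2 * q ≤ p * q := Nat.mul_le_mul_right _ (by omega)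
          omega
        · rw [← hr]
          simp
      have t4 : ¬ tri q X W S (z jm - b * q) (jm + a + b) := by
        rw [hS, tri_iff X W hT (r := a) (m := 1 - c) ?_ ?_ ?_ (by omega)]
        · have : q * (d + 1) ≤ q * a := Nat.mul_le_mul_left _ (by omega)
          have h5 : q * (d + 1) = q * d + q := by ring
          omega
        · rw [hm]; push_cast; ring
        · have h1 : 2 * q ≤ p * q := Nat.mul_le_mul_right _ (by omega)
          omega
        · rw [← hr]
          ring
      rw [if_neg t1, if_pos t3, if_neg t4]
      split_ifs <;> omega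
    · intro j h1 h2
      obtain ⟨h3, h4⟩ := hcon j h1 h2
      rw [if_neg h3, if_neg h4]
      split_ifs <;> omega
  have := abs_le.1 hF
  omega

end

end Helper12.TL
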